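import Pool.Agent.H12.DA.Tools

/-!
# DA: the surplus `Sur m b = ∬ (1/c)|dA|²` is bounded by `∫_1^2 DD (Am m b)`

`DD A (s + t) ≤ 2 (DD A s + DD A t)`; for `0 ≤ s ≤ 1/2`: `DD s ≤ 2 (DD (σ+s) + DD σ)`, `σ ∈ [1,3/2]`, averaged:
`DD s ≤ 8 U`, `U = ∫_1^2 DD`; `DD (2 a) ≤ 4 DD a`; so `DD τ ≤ 8192 e^{τ/4} U` and `Sur ≤ 65536 U`.
-/

set_option autoImplicit false
open Real Set MeasureTheory Filter Topology

namespace Pool.Agent.H12.DA
open Pool.Agent.H45.FL Pool.Agent.H51.DG Pool.Agent.H45.DY Pool.Agent.H90.DC Pool.Agent.H90.DE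
open Pool.Agent.H44.DE Pool.Agent.H44.DA

variable {A A' : ℝ → ℝ}

theorem DDint (hA : Adm A A') (τ : ℝ) : Integrable fun r => (A (r + τ) - A r) ^ 2 := by
  refine (NA_diff hA hA τ).1.congr (Eventually.of_forall fun u => ?_)
  show (A (u + τ) - A u) * (A (u + τ) - A u) = _
  ring

theorem DD_neg (hA : Adm A A') (τ : ℝ) : DD A (-τ) = DD A τ := by
  rw [DD_eq hA, DD_eq hA, corr_swap]

theorem DD_add (hA : Adm A A') (s t : ℝ) : DD A (s + t) ≤ 2 * (DD A s + DD A t) := by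
  have h1 := DDint hA s
  have h2 : Integrable fun r => (A (r + s + t) - A (r + s)) ^ 2 := (DDint hA t).comp_add_right s
  have h3 : ∫ r, (A (r + s + t) - A (r + s)) ^ 2 = DD A t :=
    integral_add_right_eq_self (fun r => (A (r + t) - A r) ^ 2) s
  have h4 : DD A (s + t) ≤ ∫ r, (2 * (A (r + s) - A r) ^ 2 + 2 * (A (r + s + t) - A (r + s)) ^ 2) := by
    unfold DD
    refine integral_mono (DDint hA (s + t)) ((h1.const_mul 2).add (h2.const_mul 2)) fun r => ?_
    show (A (r + (s + t)) - A r) ^ 2 ≤ _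
    rw [← add_assoc]
    nlinarith [sq_nonneg (A (r + s) - A r - (A (r + s + t) - A (r + s)))]
  rw [integral_add (h1.const_mul 2) (h2.const_mul 2), integral_const_mul, integral_const_mul, h3] at h4
  unfold DD at h4 ⊢
  linarith

/-- small steps -/
theorem DD_small (hA : Adm A A') {s : ℝ} (h0 : 0 ≤ s) (h1 : s ≤ 1 / 2) :
    DD A s ≤ 8 * ∫ τ in (1:ℝ)..2, DD A τ := by
  have hc := continuous_DD hA
  have hii : ∀ p q : ℝ, IntervalIntegrable (DD A) volume p q := fun p q => hc.intervalIntegrable p q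
  have h2 : ∫ σ in (1:ℝ)..(3 / 2), DD A s ≤
      ∫ σ in (1:ℝ)..(3 / 2), (2 * DD A (σ + s) + 2 * DD A σ) := by
    refine intervalIntegral.integral_mono_on (by norm_num) (by simp)
      (((hc.comp (continuous_id.add continuous_const)).const_mul 2).add
        (hc.const_mul 2) |>.intervalIntegrable _ _) ?_
    intro σ _
    have := DD_add hA (σ + s) (-σ)
    rw [DD_neg hA, show σ + s + -σ = s by ring] at this
    linarith
  have i1 : IntervalIntegrable (fun σ => 2 * DD A (σ + s)) volume 1 (3 / 2) :=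
    ((hc.comp (continuous_id.add continuous_const)).const_mul 2).intervalIntegrable _ _
  have i2 : IntervalIntegrable (fun σ => 2 * DD A σ) volume 1 (3 / 2) :=
    (hc.const_mul 2).intervalIntegrable _ _
  rw [intervalIntegral.integral_const, intervalIntegral.integral_add i1 i2,
    intervalIntegral.integral_const_mul, intervalIntegral.integral_const_mul,
    intervalIntegral.integral_comp_add_right (fun x => DD A x) s] at h2
  have hnn : ∀ p q : ℝ, p ≤ q → 0 ≤ ∫ x in p..q, DD A x := fun p q hpq =>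
    intervalIntegral.integral_nonneg hpq fun x _ => DD_nonneg A x
  have h3 : ∫ x in (1 + s)..(3 / 2 + s), DD A x ≤ ∫ τ in (1:ℝ)..2, DD A τ := by
    have e1 := intervalIntegral.integral_add_adjacent_intervals (hii 1 (1 + s)) (hii (1 + s) (3 / 2 + s))
    have e2 := intervalIntegral.integral_add_adjacent_intervals (hii 1 (3 / 2 + s)) (hii (3 / 2 + s) 2)
    have := hnn 1 (1 + s) (by linarith)
    have := hnn (3 / 2 + s) 2 (by linarith)
    linarith
  have h4 : ∫ x in (1:ℝ)..(3 / 2), DD A x ≤ ∫ τ in (1:ℝ)..2, DD A τ := by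
    have e2 := intervalIntegral.integral_add_adjacent_intervals (hii 1 (3 / 2)) (hii (3 / 2) 2)
    have := hnn (3 / 2) 2 (by norm_num)
    linarith
  norm_num at h2
  linarith

theorem DD_pow (hA : Adm A A') (n : ℕ) : ∀ s : ℝ, 0 ≤ s → s ≤ 2 ^ n / 2 →
    DD A s ≤ 8 * 4 ^ n * ∫ τ in (1:ℝ)..2, DD A τ := by
  induction n with
  | zero =>
    intro s h0 h1
    have := DD_small hA h0 (by simpa using h1)
    linarith
  | succ n ih =>
    intro s h0 h1
    have h2 := ih (s / 2) (by linarith) (by rw [pow_succ] at h1; linarith)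
    have h3 := DD_add hA (s / 2) (s / 2)
    rw [show s / 2 + s / 2 = s by ring] at h3
    rw [pow_succ]
    linarith

theorem DD_grow (hA : Adm A A') {s : ℝ} (h0 : 0 ≤ s) :
    DD A s ≤ 8192 * Real.exp (s / 4) * ∫ τ in (1:ℝ)..2, DD A τ := by
  obtain ⟨n, h1, h2⟩ := exists_nat_pow_near (show (1:ℝ) ≤ 2 * s + 1 by linarith)
    (show (1:ℝ) < 2 by norm_num)
  have hU : 0 ≤ ∫ τ in (1:ℝ)..2, DD A τ :=
    intervalIntegral.integral_nonneg (by norm_num) fun x _ => DD_nonneg A x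
  have h3 := DD_pow hA (n + 1) s h0 (by linarith)
  refine h3.trans (mul_le_mul_of_nonneg_right ?_ hU)
  have h4 : 2 * s + 1 ≤ 16 * Real.exp (s / 8) := by
    have := Real.add_one_le_exp (s / 8)
    linarith
  have h5 : (2:ℝ) ^ n ≤ 16 * Real.exp (s / 8) := h1.trans h4
  have h6 : ((2:ℝ) ^ n) ^ 2 ≤ (16 * Real.exp (s / 8)) ^ 2 := pow_le_pow_left₀ (by positivity) h5 2
  have h7 : (4:ℝ) ^ (n + 1) = 4 * ((2:ℝ) ^ n) ^ 2 := by
    rw [pow_succ, ← pow_mul, mul_comm n 2, pow_mul]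
    norm_num
    ring
  have h8 : (16 * Real.exp (s / 8)) ^ 2 = 256 * Real.exp (s / 4) := by
    rw [mul_pow, ← Real.exp_nat_mul]
    norm_num
    ring_nf
  rw [h7]
  rw [h8] at h6
  linarith

/-- the bridge -/
theorem Sur_le {b : ℝ → ℝ} (hb : Bd b) {m : ℝ} (hm : 0 < m) :
    Sur m b ≤ 65536 * ∫ τ in (1:ℝ)..2, DD (Am m b) τ := by
  have hA := adm_Am hb hm
  obtain ⟨-, h1, h2⟩ := Sur_eq hm hb
  have hU : 0 ≤ ∫ τ in (1:ℝ)..2, DD (Am m b) τ :=
    intervalIntegral.integral_nonneg (by norm_num) fun x _ => DD_nonneg _ x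
  obtain ⟨U, hUd⟩ : ∃ U, U = ∫ τ in (1:ℝ)..2, DD (Am m b) τ := ⟨_, rfl⟩
  obtain ⟨i1, v1⟩ := int_exp_Ioi (c := 1 / 4) (by norm_num) 0
  have h3 : ∫ τ in Ioi (0:ℝ), 1 / cc τ * DD (Am m b) τ ≤
      ∫ τ in Ioi (0:ℝ), 8192 * U * Real.exp (-(1 / 4) * τ) := by
    refine setIntegral_mono_on h1 (i1.const_mul _) measurableSet_Ioi ?_
    intro τ hτ
    have hτ0 : 0 < τ := hτ
    have h4 := DD_grow hA hτ0.le
    rw [← hUd] at h4
    have h5 := cc_exp τ
    rw [abs_of_pos hτ0] at h5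
    have h6 : 1 / cc τ ≤ Real.exp (-(τ / 2)) := by
      rw [Real.exp_neg, ← one_div]
      exact one_div_le_one_div_of_le (Real.exp_pos _) h5
    have h7 := mul_le_mul h6 h4 (DD_nonneg _ _) (Real.exp_pos _).le
    refine h7.trans (le_of_eq ?_)
    have h8 : Real.exp (-(τ / 2)) * Real.exp (τ / 4) = Real.exp (-(1 / 4) * τ) := by
      rw [← Real.exp_add]
      congr 1
      ring
    rw [← h8]
    ring
  rw [integral_const_mul, v1] at h3
  have e0 : Real.exp (-(1 / 4) * (0:ℝ)) = 1 := by simp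
  rw [e0] at h3
  rw [h2, ← hUd]
  linarith

end Pool.Agent.H12.DA
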