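import Pool.Agent.H53.DA.ShortA
import Pool.Agent.H53.DA.RegP
import Pool.Agent.H53.DA.ToolB
import Pool.Agent.H53.DA.ToolC
import Pool.Agent.H53.DA.Quad

/-!
# DA static job S12 (RegI), backup copy
-/

set_option autoImplicit false
open Real Set MeasureTheory Filter Topology

namespace Pool.Agent.H12.DA.RegIb
open Pool.Agent.H45.FL Pool.Agent.H51.DG Pool.Agent.H45.DY Pool.Agent.H90.DC Pool.Agent.H90.DA
open Pool.Agent.H53.DA

/-- abstract closing of the regime -/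
theorem close {d C5 A2 A7 k : ℝ} (hd : 0 < d) (hC5 : 0 ≤ C5) (hA2 : 0 ≤ A2) (hA7 : 0 ≤ A7)
    (hk : 1 ≤ k) (hkd : 32 / d ≤ k) :
    ∃ K : ℝ, 0 ≤ K ∧ ∀ K' : ℝ, K ≤ K' → ∃ C : ℝ, 0 ≤ C ∧
      ∀ D Se V Ve M m μ ℓ q F : ℝ, 0 ≤ Se → 0 ≤ V → 0 ≤ Ve → 0 ≤ m → 0 ≤ μ → 0 ≤ F →
      M = μ + 2 * m → 1 ≤ ℓ → k ≤ q → q ≤ k * ℓ → d * (q * V ^ 2) ≤ D →
      m ^ 2 * ℓ ^ 3 ≤ C5 * Se → Ve ^ 2 * ℓ ≤ C5 * Se →
      2 * (4 * q / k) * V ^ 2 + 2 * A2 * V * M + 2 * 1 * V * M + 2 * 0 * M ^ 2 +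
        2 * (2 * q) * V * Ve + 68 * M * m + A7 * F + μ * (V + 2 * M) + 2 * K' * (μ * M) ≤
        D + K' * (Se / 4 + F) + C * (μ * M) := by
  obtain ⟨c, hc⟩ : ∃ c : ℝ, c = 2 * A2 + 3 := ⟨_, rfl⟩
  have hc0 : 0 ≤ c := by rw [hc]; positivity
  obtain ⟨G, hG⟩ : ∃ G : ℝ, G = c ^ 2 / d + 34 := ⟨_, rfl⟩
  have hG0 : 0 ≤ G := by rw [hG]; positivity
  obtain ⟨K, hK⟩ : ∃ K : ℝ, K = 4 * (4 * G * C5 + 16 / d * (k * C5)) + A7 := ⟨_, rfl⟩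
  have hk0 : 0 < k := by linarith
  have hK0 : 0 ≤ K := by rw [hK]; positivity
  refine ⟨K, hK0, fun K' hK' => ⟨2 * G + 2 + 2 * K', ?_, ?_⟩⟩
  · have : 0 ≤ K' := hK0.trans hK'
    positivity
  intro D Se V Ve M m μ ℓ q F hSe hV hVe hm hμ hF hM hℓ hkq hql hD hm5 hVe5
  have hMn : 0 ≤ M := by rw [hM]; positivity
  have hK'0 : 0 ≤ K' := hK0.trans hK'
  have hq1 : 1 ≤ q := hk.trans hkq
  have hq0 : 0 < q := by linarith
  have hVM : 0 ≤ V * M := mul_nonneg hV hMn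
  have hμM : 0 ≤ μ * M := mul_nonneg hμ hMn
  have hmμ : 0 ≤ μ * m := mul_nonneg hμ hm
  have hV2 : V ^ 2 ≤ q * V ^ 2 := by
    have := mul_le_mul_of_nonneg_right hq1 (sq_nonneg V)
    linarith
  have hP : 0 ≤ q * V ^ 2 := by positivity
  -- (i)
  have h1 : 2 * (4 * q / k) * V ^ 2 ≤ d / 4 * (q * V ^ 2) := by
    have e1 : 2 * (4 * q / k) * V ^ 2 = 8 / k * (q * V ^ 2) := by ring
    have e2 : 8 / k ≤ d / 4 := by
      rw [div_le_iff₀ hk0]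
      rw [div_le_iff₀ hd] at hkd
      linarith
    rw [e1]
    exact mul_le_mul_of_nonneg_right e2 hP
  -- (ii)
  have h2 : c * (V * M) ≤ d / 4 * (q * V ^ 2) + c ^ 2 / d * M ^ 2 := by
    have e1 : d / 4 * V ^ 2 + c ^ 2 / d * M ^ 2 - c * (V * M) = (d / 2 * V - c * M) ^ 2 / d := by
      field_simp
      ring
    have e2 : 0 ≤ (d / 2 * V - c * M) ^ 2 / d := by positivity
    have e3 : d / 4 * V ^ 2 ≤ d / 4 * (q * V ^ 2) := mul_le_mul_of_nonneg_left hV2 (by positivity)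
    linarith
  -- (iii)
  have h3 : 2 * (2 * q) * V * Ve ≤ d / 4 * (q * V ^ 2) + 16 / d * (k * C5) * Se := by
    have e1 : d / 4 * V ^ 2 + 16 / d * Ve ^ 2 - 4 * (V * Ve) = (d / 2 * V - 4 * Ve) ^ 2 / d := by
      field_simp
      ring
    have e2 : 0 ≤ (d / 2 * V - 4 * Ve) ^ 2 / d := by positivity
    have e3 : 0 ≤ q * (d / 4 * V ^ 2 + 16 / d * Ve ^ 2 - 4 * (V * Ve)) :=
      mul_nonneg hq0.le (by linarith)
    have e4 : q * Ve ^ 2 ≤ k * (C5 * Se) := by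
      have j1 : q * Ve ^ 2 ≤ k * ℓ * Ve ^ 2 := mul_le_mul_of_nonneg_right hql (sq_nonneg _)
      have j2 : k * (Ve ^ 2 * ℓ) ≤ k * (C5 * Se) := mul_le_mul_of_nonneg_left hVe5 hk0.le
      linarith
    have e5 : 16 / d * (q * Ve ^ 2) ≤ 16 / d * (k * (C5 * Se)) :=
      mul_le_mul_of_nonneg_left e4 (by positivity)
    have e6 : q * (d / 4 * V ^ 2 + 16 / d * Ve ^ 2 - 4 * (V * Ve)) =
        d / 4 * (q * V ^ 2) + 16 / d * (q * Ve ^ 2) - 2 * (2 * q) * V * Ve := by ring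
    linarith
  -- (iv)
  have hm2 : m ^ 2 ≤ C5 * Se := by
    have j1 : 1 ≤ ℓ ^ 3 := one_le_pow₀ hℓ
    have j2 := mul_le_mul_of_nonneg_left j1 (sq_nonneg m)
    linarith
  have hMsq : M ^ 2 ≤ 2 * (μ * M) + 4 * (C5 * Se) := by
    have e3 : M ^ 2 = μ ^ 2 + 4 * (μ * m) + 4 * m ^ 2 := by rw [hM]; ring
    have e4 : μ * M = μ ^ 2 + 2 * (μ * m) := by rw [hM]; ring
    rw [e3, e4]
    have := sq_nonneg μ
    linarith
  -- (v)
  have h5 : 68 * M * m ≤ 34 * M ^ 2 := by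
    have j1 : 2 * m ≤ M := by linarith
    have j2 := mul_le_mul_of_nonneg_left j1 hMn
    have j3 : M * M = M ^ 2 := by ring
    linarith
  have h6 : μ * V ≤ V * M := by
    have j1 : μ ≤ M := by linarith
    have j2 := mul_le_mul_of_nonneg_left j1 hV
    linarith
  have h7 : G * M ^ 2 ≤ G * (2 * (μ * M) + 4 * (C5 * Se)) := mul_le_mul_of_nonneg_left hMsq hG0
  have h8 : G * M ^ 2 = c ^ 2 / d * M ^ 2 + 34 * M ^ 2 := by rw [hG]; ring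
  have h9 : c * (V * M) = 2 * A2 * V * M + 3 * (V * M) := by rw [hc]; ring
  have h10 : A7 * F ≤ K' * F := by
    refine mul_le_mul_of_nonneg_right ?_ hF
    have : 0 ≤ 4 * (4 * G * C5 + 16 / d * (k * C5)) := by positivity
    linarith
  have h11 : (4 * G * C5 + 16 / d * (k * C5)) * Se ≤ K' / 4 * Se := by
    refine mul_le_mul_of_nonneg_right ?_ hSe
    linarith
  have h12 : 0 ≤ d * (q * V ^ 2) := by positivity
  have e1 : (2 * G + 2 + 2 * K') * (μ * M) = 2 * G * (μ * M) + 2 * (μ * M) + 2 * K' * (μ * M) := by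
    ring
  have e2 : μ * (V + 2 * M) = μ * V + 2 * (μ * M) := by ring
  rw [e1, e2]
  linarith

theorem reg_i : ∃ k0 : ℝ, ∀ k : ℝ, k0 ≤ k → ∃ K : ℝ, 0 ≤ K ∧ ∀ K' : ℝ, K ≤ K' →
    ∃ C : ℝ, 0 ≤ C ∧ ∀ (f : ℝ → ℝ) (l : ℝ), VanA f l → l < π → 2 ≤ 1 / Real.sin (l / 2) →
    17 / 16 * EAk f l ≤ TA (qk k l) (dqk k l) f l + K' * BNA f l +
      C * (∫ x in (0:ℝ)..(2 * π), f x) * Ma f := by
  obtain ⟨δ, hδ, hquad⟩ := quad_form
  obtain ⟨C4, hC4, hT4⟩ := T4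
  obtain ⟨C5, hC5, hT5⟩ := T5
  obtain ⟨δ0, hδ0⟩ : ∃ d : ℝ, d = min δ (1 / 4) := ⟨_, rfl⟩
  have hδ0p : 0 < δ0 := by
    rw [hδ0]
    exact lt_min hδ (by norm_num)
  have hδ01 : δ0 ≤ δ := by rw [hδ0]; exact min_le_left _ _
  have hδ02 : δ0 ≤ 1 / 4 := by rw [hδ0]; exact min_le_right _ _
  obtain ⟨d, hd⟩ : ∃ d : ℝ, d = δ0 / (C4 + 1) := ⟨_, rfl⟩
  have hd0 : 0 < d := by rw [hd]; positivity
  refine ⟨max 32 (32 / d), fun k hk0 => ?_⟩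
  have hk : 32 ≤ k := (le_max_left _ _).trans hk0
  have hkd : 32 / d ≤ k := (le_max_right _ _).trans hk0
  obtain ⟨A2, hA2, hh2⟩ := regI_h2 hk
  obtain ⟨A7, hA7, hh6⟩ := regI_h6 hk
  obtain ⟨K, hK, hmain⟩ := close (d := d) (C5 := C5) (A2 := A2) (A7 := A7) (k := k) hd0 hC5 hA2 hA7
    (by linarith) hkd
  refine ⟨K, hK, fun K' hK' => ?_⟩
  obtain ⟨C, hC, hcl⟩ := hmain K' hK'
  refine ⟨C, hC, fun f l h hl hs => ?_⟩
  have hπ := Real.pi_pos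
  obtain ⟨hℓ1, hql, hkq, hqkl, hkap, -⟩ := RegP_rel hk h.l0 hl hs
  obtain ⟨hBa, hBL, hBb, hBR, hBe⟩ := bd_parts h
  have hfc : Continuous f := by
    obtain ⟨L, hL⟩ := h.lip
    exact Lip.continuous hL
  obtain ⟨hM1, hM2, hA0, hL0, hb0⟩ := mass_short h.toTwoA hfc hl
  have hk0' : 0 < k := by linarith
  have hq0 : 0 < qk k l := by linarith
  have H1 : ∀ y y' : ℝ, qk k l < y → qk k l < y' →
      -(4 * qk k l / k * (y' - qk k l)) - A2 ≤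
        gg (qk k l) y (qk k l) - kap k l * Real.log (1 + y' / ct l) := by
    intro y y' hy hy'
    have := regI_h1 hk h.l0 hl hs hy hy'
    linarith
  have H2 : ∀ y y' : ℝ, qk k l < y → 0 < y' → y' ≤ qk k l →
      -A2 ≤ gg (qk k l) y y' - kap k l * Real.log (1 + y' / ct l) :=
    fun y y' hy hy0 hyq => hh2 l y y' h.l0 hl hs hy hy0 hyq
  have H3 : ∀ y t : ℝ, qk k l < y → 0 < t → t < ct l →
      -(1 * (y - qk k l)) - 0 ≤
        (y - qk k l) * (gg (qk k l) y (-t) - kap k l * Real.log (1 - t / ct l)) := by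
    intro y t hy ht htl
    have g1 := gg_L hk h.l0 hl hy ht htl
    have hy0 : 0 < y := by linarith
    have g2 := mul_le_mul_of_nonneg_left g1 (by linarith : 0 ≤ y - qk k l)
    have g3 : ct l / y ≤ 1 := by
      rw [div_le_one hy0]
      have : ct l * 2 ≤ k * ct l := by
        have := mul_le_mul_of_nonneg_right (by linarith : 4 ≤ k) (by linarith : 0 ≤ ct l)
        linarith
      have h32 : 32 * ct l ≤ k * ct l := mul_le_mul_of_nonneg_right hk (by linarith)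
      linarith
    have g4 := mul_le_mul_of_nonneg_left g3 (by linarith : 0 ≤ y - qk k l)
    linarith
  have H5 : ∀ z : ℝ, ct l < z →
      -(2 * qk k l * ((1 + z * ct l) / (z - ct l))) ≤ kap k l * Real.log (z / ct l - 1) :=
    fun z hz => regI_h5 hk h.l0 hl hs hz
  have H6 : ∀ y z : ℝ, 0 < y → y < 60 * qk k l → ct l < z → 17 / 2 * chp y z ^ 3 ≤
      68 + A7 * (ct l * max ((y * ct l - 1) / (y + ct l)) 0 ^ 2) :=
    fun y z hy hyq hz => hh6 l y z h.l0 hl hs hy hyq hz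
  have hasm := short_asm hk h.l0 hl
    ⟨by positivity, hA2, zero_le_one, le_rfl, by positivity, by norm_num, hA7⟩
    H1 H2 H3 H5 H6 hquad h
  have hbud := bud_ge h
  rw [if_pos hl] at hbud
  have hF0 := (FPt_int h hl).2
  obtain ⟨hSe0, -, hN3e⟩ := N3_su hBe
  have hBh := bd_hat hq0.le hBa
  obtain ⟨hSa0, hSa10, -⟩ := N3_su hBh
  obtain ⟨hSb0, -, -⟩ := N3_su hBb
  obtain ⟨-, -, hV0, -⟩ := ms_hat hq0.le hBa
  obtain ⟨-, -, hm5, hm5e⟩ := hT5 f l h hl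
  have hVe0 : 0 ≤ vs (bE f l) := Pool.Agent.H12.DA.Vb_nn hBe
  have hμ0 := h.mean
  have hT4a := hT4 _ hBh (qk k l) hq0
  have hMμ : Ma f = (∫ x in (0:ℝ)..(2 * π), f x) + 2 * ms (bC f) := by
    rw [hM1, hM2]
    ring
  obtain ⟨V, eV⟩ : ∃ V : ℝ, V = vs (hat (qk k l) (bF f)) := ⟨_, rfl⟩
  obtain ⟨Ve, eVe⟩ : ∃ V : ℝ, V = vs (bE f l) := ⟨_, rfl⟩
  obtain ⟨M, eM⟩ : ∃ V : ℝ, V = Ma f := ⟨_, rfl⟩
  obtain ⟨m, em⟩ : ∃ V : ℝ, V = ms (bC f) := ⟨_, rfl⟩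
  obtain ⟨μ, eμ⟩ : ∃ V : ℝ, V = ∫ x in (0:ℝ)..(2 * π), f x := ⟨_, rfl⟩
  obtain ⟨Sa, eSa⟩ : ∃ V : ℝ, V = Su (hat (qk k l) (bF f)) := ⟨_, rfl⟩
  obtain ⟨Sa1, eSa1⟩ : ∃ V : ℝ, V = Su1 (hat (qk k l) (bF f)) := ⟨_, rfl⟩
  obtain ⟨Sb, eSb⟩ : ∃ V : ℝ, V = Su (bC f) := ⟨_, rfl⟩
  obtain ⟨Se, eSe⟩ : ∃ V : ℝ, V = Su (bE f l) := ⟨_, rfl⟩
  obtain ⟨F, eF⟩ : ∃ V : ℝ, V = FPt f l := ⟨_, rfl⟩
  rw [← eV, ← eVe, ← eM, ← em, ← eμ, ← eSa, ← eSb, ← eSa1, ← eF] at hasm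
  rw [← eμ, ← eM, ← eF] at hbud
  rw [← eSe] at hN3e
  rw [← eF] at hF0
  rw [← eV] at hV0
  rw [← eVe] at hVe0
  rw [← em] at hb0
  rw [← eSa1] at hSa10
  rw [← eSa] at hSa0
  rw [← eSb] at hSb0
  rw [← eSe] at hSe0
  rw [← eμ] at hμ0
  rw [← eμ, ← eM, ← em] at hMμ
  rw [← eV, ← eSa, ← eSa1] at hT4a
  rw [← em, ← eSe] at hm5
  rw [← eVe, ← eSe] at hm5e
  rw [← eμ, ← eM]
  have hMn : 0 ≤ M := by linarith
  obtain ⟨D, eD⟩ : ∃ D : ℝ, D = δ * (Sa + Sb) + qk k l ^ 2 * Sa1 / 4 := ⟨_, rfl⟩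
  have hD : d * (qk k l * V ^ 2) ≤ D := by
    have j1 : d * (qk k l * V ^ 2) ≤ d * (C4 * (Sa + qk k l ^ 2 * Sa1)) :=
      mul_le_mul_of_nonneg_left hT4a hd0.le
    have hS : 0 ≤ Sa + qk k l ^ 2 * Sa1 := by positivity
    have j2 : d * (C4 * (Sa + qk k l ^ 2 * Sa1)) ≤ δ0 * (Sa + qk k l ^ 2 * Sa1) := by
      have j3 : d * C4 ≤ δ0 := by
        rw [hd, div_mul_eq_mul_div, div_le_iff₀ (by positivity)]
        have e1 : δ0 * (C4 + 1) = δ0 * C4 + δ0 := by ring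
        linarith
      have j4 := mul_le_mul_of_nonneg_right j3 hS
      linarith
    have j5 : δ0 * Sa ≤ δ * Sa := mul_le_mul_of_nonneg_right hδ01 hSa0
    have j6 : δ0 * (qk k l ^ 2 * Sa1) ≤ 1 / 4 * (qk k l ^ 2 * Sa1) :=
      mul_le_mul_of_nonneg_right hδ02 (by positivity)
    have j7 : 0 ≤ δ * Sb := by positivity
    rw [eD]
    linarith
  have hfin := hcl D Se V Ve M m μ (ct l) (qk k l) F hSe0 hV0 hVe0 hb0 hμ0 hF0 hMμ hℓ1 hkq hqkl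
    hD hm5 hm5e
  have hK'0 : 0 ≤ K' := hK.trans hK'
  have B8 : K' * (Se / 4 + F - 2 * (μ * M)) ≤ K' * (8 * π * BNA f l) := by
    refine mul_le_mul_of_nonneg_left ?_ hK'0
    linarith
  have hμM : 0 ≤ C * (μ * M) := by positivity
  have htot : -(C * (μ * M)) ≤
      8 * π * (TA (qk k l) (dqk k l) f l - 17 / 16 * EAk f l + K' * BNA f l) := by
    have e6 : 8 * π * (TA (qk k l) (dqk k l) f l - 17 / 16 * EAk f l + K' * BNA f l) =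
        8 * π * (TA (qk k l) (dqk k l) f l - 17 / 16 * EAk f l) + K' * (8 * π * BNA f l) := by ring
    rw [e6]
    rw [eD] at hfin
    linarith
  have h8 : 1 ≤ 8 * π := by linarith [Real.pi_gt_three]
  by_contra hcon
  push Not at hcon
  have h9 : TA (qk k l) (dqk k l) f l - 17 / 16 * EAk f l + K' * BNA f l < -(C * (μ * M)) := by
    linarith
  have h10 : 8 * π * (TA (qk k l) (dqk k l) f l - 17 / 16 * EAk f l + K' * BNA f l) <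
      8 * π * (-(C * (μ * M))) := mul_lt_mul_of_pos_left h9 (by linarith)
  have h11 : C * (μ * M) ≤ 8 * π * (C * (μ * M)) := by
    have := mul_le_mul_of_nonneg_right h8 hμM
    linarith
  linarith

end Pool.Agent.H12.DA.RegIb
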