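import Pool.Agent.H44.DE.SAbs
import Pool.Agent.H44.DA.Quad

/-!
# DA (class (A) of MP_64e98b_an, note 1995, section 4): the surplus and the tool T1

`Sur m b = ∬ (1/c(r-s)) (A r - A s)²`, `A = Am m b`, `A r = e^{-mr} M(e^{-r})`, `c τ = 2 cosh (τ/2)`.
`gA m b r = ∫_r^{r+1} A`.

* `gA_diff`: `|gA r - gA s| ≤ 2 (1 + |r - s|) √Sur`;
* `tool1`: `A r ≤ e^m (ms b e^{-m r'} + 2 (1 + |r - r'|) √Sur)`.
-/

set_option autoImplicit false
open Real Set MeasureTheory Filter Topology

namespace Pool.Agent.H12.DA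
open Pool.Agent.H45.FL Pool.Agent.H51.DG Pool.Agent.H45.DY Pool.Agent.H90.DC Pool.Agent.H90.DE
open Pool.Agent.H44.DE Pool.Agent.H44.DA

/-- unit averages -/
noncomputable def gA (m : ℝ) (b : ℝ → ℝ) (r : ℝ) : ℝ := ∫ x in r..(r + 1), Am m b x

variable {b : ℝ → ℝ} {m : ℝ}

theorem Am_cont (hb : Bd b) (m : ℝ) : Continuous (Am m b) := by
  unfold Am
  exact (Real.continuous_exp.comp (by fun_prop)).mul (NF_cont_MMb hb)

theorem Sur_int (hb : Bd b) (hm : 0 < m) :
    Integrable (fun z : ℝ × ℝ => 1 / cc (z.1 - z.2) * (Am m b z.1 - Am m b z.2) ^ 2) :=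
  (Sur_eq hm hb).1

theorem Sur_nn (m : ℝ) (b : ℝ → ℝ) : 0 ≤ Sur m b := Sur_nonneg m b

theorem cc_mono {τ D : ℝ} (h : |τ| ≤ D) : cc τ ≤ cc D := by
  unfold cc
  have h1 : Real.cosh (τ / 2) ≤ Real.cosh (D / 2) := by
    rw [Real.cosh_le_cosh]
    rw [abs_div, abs_div]
    have h2 : |D| = D := abs_of_nonneg ((abs_nonneg _).trans h)
    rw [h2]
    exact div_le_div_of_nonneg_right h (abs_nonneg _)
  linarith

/-- the box inequality -/
theorem gA_box (hb : Bd b) (hm : 0 < m) {r s D : ℝ} (hD : |r - s| + 1 ≤ D) :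
    (gA m b r - gA m b s) ^ 2 ≤ cc D * Sur m b := by
  have hA := Am_cont hb m
  obtain ⟨Q, hQ⟩ : ∃ Q : Set (ℝ × ℝ), Q = Ioc r (r + 1) ×ˢ Ioc s (s + 1) := ⟨_, rfl⟩
  have hQm : MeasurableSet Q := by
    rw [hQ]
    exact measurableSet_Ioc.prod measurableSet_Ioc
  have hvol : (volume Q).toReal = 1 := by
    rw [hQ, Measure.volume_eq_prod, Measure.prod_prod, Real.volume_Ioc, Real.volume_Ioc]
    simp
  have hfin : volume Q ≠ ⊤ := by
    intro h
    rw [h] at hvol
    simp at hvol
  have hc2 : Continuous fun z : ℝ × ℝ => Am m b z.1 - Am m b z.2 :=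
    (hA.comp continuous_fst).sub (hA.comp continuous_snd)
  have hsub : Q ⊆ Icc r (r + 1) ×ˢ Icc s (s + 1) := by
    rw [hQ]
    exact prod_mono Ioc_subset_Icc_self Ioc_subset_Icc_self
  have hi : ∀ f : ℝ × ℝ → ℝ, Continuous f → IntegrableOn f Q := fun f hf =>
    (hf.continuousOn.integrableOn_compact (isCompact_Icc.prod isCompact_Icc)).mono_set hsub
  have hi1 := hi _ hc2
  have hi2 := hi _ (hc2.pow 2)
  -- the average
  have e1 : ∫ z in Q, (Am m b z.1 - Am m b z.2) = gA m b r - gA m b s := by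
    have f1 : IntegrableOn (fun z : ℝ × ℝ => Am m b z.1) Q := hi _ (hA.comp continuous_fst)
    have f2 : IntegrableOn (fun z : ℝ × ℝ => Am m b z.2) Q := hi _ (hA.comp continuous_snd)
    rw [integral_sub f1 f2, hQ, Measure.volume_eq_prod]
    have g1 : ∫ z in Ioc r (r + 1) ×ˢ Ioc s (s + 1), Am m b z.1 * (fun _ => (1:ℝ)) z.2
        ∂((volume : Measure ℝ).prod volume) =
        (∫ x in Ioc r (r + 1), Am m b x) * ∫ _ in Ioc s (s + 1), (1:ℝ) :=
      setIntegral_prod_mul (Am m b) (fun _ => (1:ℝ)) _ _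
    have g2 : ∫ z in Ioc r (r + 1) ×ˢ Ioc s (s + 1), (fun _ => (1:ℝ)) z.1 * Am m b z.2
        ∂((volume : Measure ℝ).prod volume) =
        (∫ _ in Ioc r (r + 1), (1:ℝ)) * ∫ x in Ioc s (s + 1), Am m b x :=
      setIntegral_prod_mul (fun _ => (1:ℝ)) (Am m b) _ _
    simp only [mul_one, one_mul] at g1 g2
    rw [g1, g2]
    have k : ∀ t : ℝ, ∫ _ in Ioc t (t + 1), (1:ℝ) = 1 := by
      intro t
      simp
    rw [k, k]
    unfold gA
    rw [intervalIntegral.integral_of_le (by linarith), intervalIntegral.integral_of_le (by linarith)]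
    ring
  have e2 : (gA m b r - gA m b s) ^ 2 ≤ ∫ z in Q, (Am m b z.1 - Am m b z.2) ^ 2 := by
    set c := gA m b r - gA m b s with hc
    have h1 : ∫ z in Q, (2 * c * (Am m b z.1 - Am m b z.2) - c ^ 2) ≤
        ∫ z in Q, (Am m b z.1 - Am m b z.2) ^ 2 := by
      refine setIntegral_mono ((hi1.const_mul (2 * c)).sub
        (integrableOn_const hfin)) hi2 fun z => ?_
      nlinarith [sq_nonneg (Am m b z.1 - Am m b z.2 - c)]
    rw [integral_sub (hi1.const_mul (2 * c)) (integrableOn_const hfin), integral_const_mul, e1,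
      setIntegral_const] at h1
    rw [Measure.real, hvol] at h1
    simp only [smul_eq_mul] at h1
    nlinarith
  have e3 : ∫ z in Q, (Am m b z.1 - Am m b z.2) ^ 2 ≤
      ∫ z in Q, cc D * (1 / cc (z.1 - z.2) * (Am m b z.1 - Am m b z.2) ^ 2) := by
    refine setIntegral_mono_on hi2 ((Sur_int hb hm).integrableOn.const_mul _) hQm ?_
    intro z hz
    have h1 := hsub hz
    have h2 : |z.1 - z.2| ≤ D := by
      have h3 := h1.1.1
      have h4 := h1.1.2
      have h5 := h1.2.1
      have h6 := h1.2.2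
      have h7 : |z.1 - z.2| ≤ |r - s| + 1 := by
        rw [abs_le]
        have h8 := le_abs_self (r - s)
        have h9 := neg_abs_le (r - s)
        constructor <;> linarith
      linarith
    have h3 := cc_mono h2
    have h4 := cc_pos (z.1 - z.2)
    have h5 : 1 ≤ cc D * (1 / cc (z.1 - z.2)) := by
      rw [mul_one_div, le_div_iff₀ h4]
      linarith
    have h6 := mul_le_mul_of_nonneg_right h5 (sq_nonneg (Am m b z.1 - Am m b z.2))
    rw [one_mul, mul_assoc] at h6
    exact h6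
  have e4 : ∫ z in Q, cc D * (1 / cc (z.1 - z.2) * (Am m b z.1 - Am m b z.2) ^ 2) ≤
      cc D * Sur m b := by
    rw [integral_const_mul]
    refine mul_le_mul_of_nonneg_left ?_ (cc_pos D).le
    exact setIntegral_le_integral (Sur_int hb hm)
      (Eventually.of_forall fun z => mul_nonneg (one_div_pos.2 (cc_pos _)).le (sq_nonneg _))
  linarith

theorem cc_two : cc 2 ≤ 4 := by
  have h := SComb_cc (τ := 2) (by norm_num) le_rfl
  linarith

theorem gA_near (hb : Bd b) (hm : 0 < m) {r s : ℝ} (h : |r - s| ≤ 1) :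
    |gA m b r - gA m b s| ≤ 2 * Real.sqrt (Sur m b) := by
  have h1 := gA_box hb hm (r := r) (s := s) (D := 2) (by linarith)
  have h2 : (gA m b r - gA m b s) ^ 2 ≤ (2 * Real.sqrt (Sur m b)) ^ 2 := by
    rw [mul_pow, Real.sq_sqrt (Sur_nn m b)]
    nlinarith [cc_two, Sur_nn m b]
  exact abs_le_of_sq_le_sq h2 (by positivity)

theorem gA_nat (hb : Bd b) (hm : 0 < m) (n : ℕ) : ∀ r s : ℝ, |r - s| ≤ n →
    |gA m b r - gA m b s| ≤ n * (2 * Real.sqrt (Sur m b)) := by
  induction n with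
  | zero =>
    intro r s h
    have h1 : r = s := by
      have := abs_nonpos_iff.1 (h.trans (by simp))
      linarith
    rw [h1]
    simp
  | succ n ih =>
    intro r s h
    push_cast at h ⊢
    -- an intermediate point
    obtain ⟨t, ht1, ht2⟩ : ∃ t, |r - t| ≤ n ∧ |t - s| ≤ 1 := by
      rcases le_total s r with h1 | h1
      · rw [abs_of_nonneg (by linarith)] at h
        by_cases h2 : r - s ≤ 1
        · exact ⟨r, by simp, by rw [abs_of_nonneg (by linarith)]; exact h2⟩
        · push Not at h2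
          refine ⟨s + 1, ?_, by simp⟩
          rw [abs_of_nonneg (by linarith)]
          linarith
      · rw [abs_of_nonpos (by linarith)] at h
        by_cases h2 : s - r ≤ 1
        · exact ⟨r, by simp, by rw [abs_of_nonpos (by linarith)]; linarith⟩
        · push Not at h2
          refine ⟨s - 1, ?_, by simp⟩
          rw [abs_of_nonpos (by linarith)]
          linarith
    have h3 := ih r t ht1
    have h4 := gA_near hb hm ht2
    have h5 := abs_sub_le (gA m b r) (gA m b t) (gA m b s)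
    linarith

theorem gA_diff (hb : Bd b) (hm : 0 < m) (r s : ℝ) :
    |gA m b r - gA m b s| ≤ 2 * (1 + |r - s|) * Real.sqrt (Sur m b) := by
  have h1 := gA_nat hb hm ⌈|r - s|⌉₊ r s (Nat.le_ceil _)
  have h2 := (Nat.ceil_lt_add_one (abs_nonneg (r - s))).le
  have h3 := Real.sqrt_nonneg (Sur m b)
  nlinarith

theorem gA_ge (hb : Bd b) (hm : 0 < m) (r : ℝ) : Real.exp (-m) * Am m b r ≤ gA m b r := by
  have hA := Am_cont hb m
  have h1 : ∫ x in r..(r + 1), Real.exp (-m) * Am m b r ≤ gA m b r := by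
    refine intervalIntegral.integral_mono_on (by linarith) (by simp) (hA.intervalIntegrable _ _) ?_
    intro x hx
    have h2 : MMb b r ≤ MMb b x := CA_MMb_mono hb hx.1
    have h3 := SAbs_MMb_nonneg hb r
    unfold Am
    rw [← mul_assoc, ← Real.exp_add]
    refine mul_le_mul ?_ h2 h3 (Real.exp_pos _).le
    apply Real.exp_le_exp.2
    nlinarith [hx.2]
  rw [intervalIntegral.integral_const] at h1
  simpa using h1

theorem gA_le (hb : Bd b) (hm : 0 < m) {r M : ℝ} (hM : MMb b (r + 1) ≤ M) :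
    gA m b r ≤ M * Real.exp (-(m * r)) := by
  have hA := Am_cont hb m
  have h1 : gA m b r ≤ ∫ x in r..(r + 1), M * Real.exp (-(m * r)) := by
    refine intervalIntegral.integral_mono_on (by linarith) (hA.intervalIntegrable _ _) (by simp) ?_
    intro x hx
    have h2 : MMb b x ≤ M := (CA_MMb_mono hb hx.2).trans hM
    have h3 := SAbs_MMb_nonneg hb x
    unfold Am
    rw [mul_comm]
    refine mul_le_mul h2 ?_ (Real.exp_pos _).le (h3.trans h2)
    apply Real.exp_le_exp.2
    nlinarith [hx.1]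
  rw [intervalIntegral.integral_const] at h1
  simpa using h1

theorem Am_le_gA (hb : Bd b) (hm : 0 < m) (r : ℝ) : Am m b r ≤ Real.exp m * gA m b r := by
  have h1 := mul_le_mul_of_nonneg_left (gA_ge hb hm r) (Real.exp_pos m).le
  rw [← mul_assoc, ← Real.exp_add] at h1
  simpa using h1

/-- T1, general form -/
theorem tool1' (hb : Bd b) (hm : 0 < m) (r r' : ℝ) :
    Am m b r ≤ Real.exp m * (gA m b r' + 2 * (1 + |r - r'|) * Real.sqrt (Sur m b)) := by
  have h1 := Am_le_gA hb hm r
  have h2 := (abs_le.1 (gA_diff hb hm r r')).2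
  have h3 : gA m b r ≤ gA m b r' + 2 * (1 + |r - r'|) * Real.sqrt (Sur m b) := by linarith
  exact h1.trans (mul_le_mul_of_nonneg_left h3 (Real.exp_pos m).le)

/-- T1 -/
theorem tool1 (hb : Bd b) (hm : 0 < m) (r r' : ℝ) :
    Am m b r ≤ Real.exp m * (ms b * Real.exp (-(m * r')) +
      2 * (1 + |r - r'|) * Real.sqrt (Sur m b)) := by
  have h1 := tool1' hb hm r r'
  have h2 := gA_le hb hm (r := r') (SAbs_MMb_le hb (r' + 1))
  refine h1.trans (mul_le_mul_of_nonneg_left ?_ (Real.exp_pos m).le)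
  linarith

end Pool.Agent.H12.DA
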