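import Pool.Agent.H12.DA.Sur

/-!
# DA (class (A) of MP_64e98b_an, note 1995, section 4): the tools T2-T5

`Vb b = ∫ b cot(x/2)`, `M = MMb b`, `A = Am (3/2) b`.

* T2 `tool2`: `V ≤ C (m R + R^{-1/2} √Sur)`;
* T3 `tool3`: `ms b ≤ 2 MMb b r0` ⟹ `m² e^{-3 r0} ≤ C Sur`, `tool3V` (`b` lives in `{cot ≥ e^{-r0}}`);
* T4 `tool4`: `q V² ≤ C (Sur3 + q² Sur1)`;
* T5 `tool5`: `m² ≤ C (Sur3 b + Sur3 b')` for the two views of one arc.
-/

set_option autoImplicit false
open Real Set MeasureTheory Filter Topology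

namespace Pool.Agent.H12.DA
open Pool.Agent.H45.FL Pool.Agent.H51.DG Pool.Agent.H45.DY Pool.Agent.H90.DC Pool.Agent.H90.DE
open Pool.Agent.H44.DE Pool.Agent.H44.DA

/-- `∫ b cot(x/2)` -/
noncomputable def Vb (b : ℝ → ℝ) : ℝ := ∫ x in (0:ℝ)..π, b x * ct x

variable {b : ℝ → ℝ}

theorem Vb_J1 (b : ℝ → ℝ) : Vb b = J1 b := by
  unfold Vb J1
  refine intervalIntegral.integral_congr fun x _ => ?_
  simp only [tn, ct]
  rw [Real.tan_eq_sin_div_cos, div_div_eq_mul_div, mul_div_assoc]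

theorem Vb_eq (hb : Bd b) : Vb b = ∫ u, Real.exp (-u) * MMb b u := by
  rw [Vb_J1]
  exact (SAbs_J1 hb).2.2

theorem Vb_int (hb : Bd b) : Integrable fun u => Real.exp (-u) * MMb b u := (SAbs_J1 hb).2.1

theorem Am_13 (b : ℝ → ℝ) (x : ℝ) : Am (1 / 2) b x = Real.exp x * Am (3 / 2) b x := by
  unfold Am
  rw [← mul_assoc, ← Real.exp_add]
  congr 2
  ring

theorem Vb_nn (hb : Bd b) : 0 ≤ Vb b := by
  rw [Vb_eq hb]
  exact integral_nonneg fun u => mul_nonneg (Real.exp_pos _).le (SAbs_MMb_nonneg hb u)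

/-- the two halves of `V` -/
theorem Vb_split (hb : Bd b) (ρ : ℝ) :
    Vb b = (∫ u in Iio ρ, Real.exp (-u) * MMb b u) + ∫ u in Ioi ρ, Real.exp (-u) * MMb b u := by
  rw [Vb_eq hb, ← integral_Ici_eq_integral_Ioi]
  have h := integral_add_compl (measurableSet_Iio (a := ρ)) (Vb_int hb)
  rw [compl_Iio] at h
  exact h.symm

theorem int_exp_Iio {c : ℝ} (hc : 0 < c) (ρ : ℝ) :
    IntegrableOn (fun u : ℝ => Real.exp (c * u)) (Iio ρ) ∧
      ∫ u in Iio ρ, Real.exp (c * u) = Real.exp (c * ρ) / c := by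
  refine ⟨(integrableOn_exp_mul_Iic hc ρ).mono_set Iio_subset_Iic_self, ?_⟩
  rw [← integral_Iic_eq_integral_Iio, integral_exp_mul_Iic hc]

theorem int_exp_Ioi {c : ℝ} (hc : 0 < c) (ρ : ℝ) :
    IntegrableOn (fun u : ℝ => Real.exp (-c * u)) (Ioi ρ) ∧
      ∫ u in Ioi ρ, Real.exp (-c * u) = Real.exp (-c * ρ) / c := by
  have h : -c < 0 := by linarith
  refine ⟨integrableOn_exp_mul_Ioi h ρ, ?_⟩
  rw [integral_exp_mul_Ioi h]
  field_simp

/-- left part of `V`: from a bound `A3 ≤ g + (1 + ρ - u) S` below `ρ` -/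
theorem left_part (hb : Bd b) {ρ G S : ℝ} (hG : 0 ≤ G) (hS : 0 ≤ S)
    (h : ∀ u < ρ, Am (3 / 2) b u ≤ G + (1 + |u - ρ|) * S) :
    ∫ u in Iio ρ, Real.exp (-u) * MMb b u ≤ 16 * Real.exp (ρ / 2) * (G + S) := by
  obtain ⟨i1, v1⟩ := int_exp_Iio (c := 1 / 2) (by norm_num) ρ
  obtain ⟨i2, v2⟩ := int_exp_Iio (c := 1 / 4) (by norm_num) ρ
  have h1 : ∫ u in Iio ρ, Real.exp (-u) * MMb b u ≤
      ∫ u in Iio ρ, (G * Real.exp (1 / 2 * u) + 4 * S * Real.exp (ρ / 4) * Real.exp (1 / 4 * u)) := by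
    refine setIntegral_mono_on (Vb_int hb).integrableOn ((i1.const_mul G).add (i2.const_mul _))
      measurableSet_Iio ?_
    intro u hu
    rw [SAbs_A]
    have h2 := h u hu
    have h3 : |u - ρ| = ρ - u := by
      rw [abs_of_nonpos (by linarith [show u < ρ from hu])]
      ring
    rw [h3] at h2
    have h4 : 1 + (ρ - u) ≤ 4 * Real.exp ((ρ - u) / 4) := by
      have := Real.add_one_le_exp ((ρ - u) / 4)
      linarith
    have h5 : Am (3 / 2) b u ≤ G + 4 * Real.exp ((ρ - u) / 4) * S := by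
      have := mul_le_mul_of_nonneg_right h4 hS
      linarith
    have h6 := mul_le_mul_of_nonneg_left h5 (Real.exp_pos (u / 2)).le
    have h7 : Real.exp (u / 2) * Real.exp ((ρ - u) / 4) = Real.exp (ρ / 4) * Real.exp (1 / 4 * u) := by
      rw [← Real.exp_add, ← Real.exp_add]
      congr 1
      ring
    have h8 : Real.exp (u / 2) = Real.exp (1 / 2 * u) := by
      congr 1
      ring
    calc Real.exp (u / 2) * Am (3 / 2) b u ≤ Real.exp (u / 2) * (G + 4 * Real.exp ((ρ - u) / 4) * S) := h6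
      _ = G * Real.exp (u / 2) + 4 * S * (Real.exp (u / 2) * Real.exp ((ρ - u) / 4)) := by ring
      _ = _ := by
          rw [h7, h8]
          ring
  rw [integral_add (i1.const_mul G) (i2.const_mul _), integral_const_mul, integral_const_mul, v1, v2]
    at h1
  have e1 : Real.exp (ρ / 4) * Real.exp (1 / 4 * ρ) = Real.exp (ρ / 2) := by
    rw [← Real.exp_add]
    congr 1
    ring
  have e2 : Real.exp (1 / 2 * ρ) = Real.exp (ρ / 2) := by
    congr 1
    ring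
  have h9 : G * (Real.exp (1 / 2 * ρ) / (1 / 2)) +
      4 * S * Real.exp (ρ / 4) * (Real.exp (1 / 4 * ρ) / (1 / 4)) =
      2 * G * Real.exp (ρ / 2) + 16 * S * Real.exp (ρ / 2) := by
    rw [e2, ← e1]
    ring
  rw [h9] at h1
  have := Real.exp_pos (ρ / 2)
  nlinarith [mul_nonneg hG this.le]

/-- right part of `V`: from a bound `A1 ≤ g + (1 + u - ρ) S` above `ρ` -/
theorem right_part (hb : Bd b) {ρ G S : ℝ} (hG : 0 ≤ G) (hS : 0 ≤ S)
    (h : ∀ u > ρ, Am (1 / 2) b u ≤ G + (1 + |u - ρ|) * S) :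
    ∫ u in Ioi ρ, Real.exp (-u) * MMb b u ≤ 16 * Real.exp (-(ρ / 2)) * (G + S) := by
  obtain ⟨i1, v1⟩ := int_exp_Ioi (c := 1 / 2) (by norm_num) ρ
  obtain ⟨i2, v2⟩ := int_exp_Ioi (c := 1 / 4) (by norm_num) ρ
  have h1 : ∫ u in Ioi ρ, Real.exp (-u) * MMb b u ≤
      ∫ u in Ioi ρ, (G * Real.exp (-(1 / 2) * u) +
        4 * S * Real.exp (-(ρ / 4)) * Real.exp (-(1 / 4) * u)) := by
    refine setIntegral_mono_on (Vb_int hb).integrableOn ((i1.const_mul G).add (i2.const_mul _))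
      measurableSet_Ioi ?_
    intro u hu
    have e0 : Real.exp (-u) * MMb b u = Real.exp (-(1 / 2) * u) * Am (1 / 2) b u := by
      unfold Am
      rw [← mul_assoc, ← Real.exp_add]
      congr 2
      ring
    rw [e0]
    have h2 := h u hu
    have h3 : |u - ρ| = u - ρ := abs_of_nonneg (by linarith [show ρ < u from hu])
    rw [h3] at h2
    have h4 : 1 + (u - ρ) ≤ 4 * Real.exp ((u - ρ) / 4) := by
      have := Real.add_one_le_exp ((u - ρ) / 4)
      linarith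
    have h5 : Am (1 / 2) b u ≤ G + 4 * Real.exp ((u - ρ) / 4) * S := by
      have := mul_le_mul_of_nonneg_right h4 hS
      linarith
    have h6 := mul_le_mul_of_nonneg_left h5 (Real.exp_pos (-(1 / 2) * u)).le
    have h7 : Real.exp (-(1 / 2) * u) * Real.exp ((u - ρ) / 4) =
        Real.exp (-(ρ / 4)) * Real.exp (-(1 / 4) * u) := by
      rw [← Real.exp_add, ← Real.exp_add]
      congr 1
      ring
    calc Real.exp (-(1 / 2) * u) * Am (1 / 2) b u ≤
        Real.exp (-(1 / 2) * u) * (G + 4 * Real.exp ((u - ρ) / 4) * S) := h6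
      _ = G * Real.exp (-(1 / 2) * u) +
          4 * S * (Real.exp (-(1 / 2) * u) * Real.exp ((u - ρ) / 4)) := by ring
      _ = _ := by
          rw [h7]
          ring
  rw [integral_add (i1.const_mul G) (i2.const_mul _), integral_const_mul, integral_const_mul, v1, v2]
    at h1
  have e1 : Real.exp (-(ρ / 4)) * Real.exp (-(1 / 4) * ρ) = Real.exp (-(ρ / 2)) := by
    rw [← Real.exp_add]
    congr 1
    ring
  have e2 : Real.exp (-(1 / 2) * ρ) = Real.exp (-(ρ / 2)) := by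
    congr 1
    ring
  have h9 : G * (Real.exp (-(1 / 2) * ρ) / (1 / 2)) +
      4 * S * Real.exp (-(ρ / 4)) * (Real.exp (-(1 / 4) * ρ) / (1 / 4)) =
      2 * G * Real.exp (-(ρ / 2)) + 16 * S * Real.exp (-(ρ / 2)) := by
    rw [e2, ← e1]
    ring
  rw [h9] at h1
  have := Real.exp_pos (-(ρ / 2))
  nlinarith [mul_nonneg hG this.le]

/-- the far part -/
theorem right_mass (hb : Bd b) (ρ : ℝ) :
    ∫ u in Ioi ρ, Real.exp (-u) * MMb b u ≤ ms b * Real.exp (-ρ) := by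
  have h1 : ∫ u in Ioi ρ, Real.exp (-u) * MMb b u ≤ ∫ u in Ioi ρ, ms b * Real.exp (-u) := by
    refine setIntegral_mono_on (Vb_int hb).integrableOn
      ((integrableOn_exp_neg_Ioi ρ).const_mul _) measurableSet_Ioi ?_
    intro u _
    rw [mul_comm]
    exact mul_le_mul_of_nonneg_right (SAbs_MMb_le hb u) (Real.exp_pos _).le
  rwa [integral_const_mul, integral_exp_neg_Ioi] at h1

theorem exp_32 : Real.exp (3 / 2) ≤ 5 := by
  have h1 := Real.exp_one_lt_d9
  have h2 : Real.exp (3 / 2) ^ 2 = Real.exp 1 ^ 3 := by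
    rw [← Real.exp_nat_mul, ← Real.exp_nat_mul]
    congr 1
    norm_num
  have h3 := Real.exp_pos 1
  have h4 : Real.exp 1 ^ 3 ≤ 25 := by
    have : Real.exp 1 ^ 3 ≤ 2.7182818286 ^ 3 := pow_le_pow_left₀ h3.le h1.le 3
    exact this.trans (by norm_num)
  by_contra hc
  push Not at hc
  nlinarith

/-- T2 in the logarithmic variable: `R = e^{-ρ}` -/
theorem tool2_log (hb : Bd b) (ρ : ℝ) :
    Vb b ≤ 81 * (ms b * Real.exp (-ρ)) + 160 * (Real.exp (ρ / 2) * Real.sqrt (Sur (3 / 2) b)) := by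
  have hm := SAbs_ms_nonneg hb
  have hS := Real.sqrt_nonneg (Sur (3 / 2) b)
  have he := exp_32
  have h1 : ∀ u < ρ, Am (3 / 2) b u ≤ 5 * (ms b * Real.exp (-(3 / 2 * ρ))) +
      (1 + |u - ρ|) * (10 * Real.sqrt (Sur (3 / 2) b)) := by
    intro u _
    have h2 := tool1 hb (m := 3 / 2) (by norm_num) u ρ
    have h3 : 0 ≤ ms b * Real.exp (-(3 / 2 * ρ)) + 2 * (1 + |u - ρ|) * Real.sqrt (Sur (3 / 2) b) := by
      positivity
    have h4 := mul_le_mul_of_nonneg_right he h3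
    linarith
  have h2 := left_part hb (by positivity) (by positivity) h1
  have h3 := right_mass hb ρ
  rw [Vb_split hb ρ]
  have e1 : Real.exp (ρ / 2) * Real.exp (-(3 / 2 * ρ)) = Real.exp (-ρ) := by
    rw [← Real.exp_add]
    congr 1
    ring
  have e2 : 16 * Real.exp (ρ / 2) * (5 * (ms b * Real.exp (-(3 / 2 * ρ))) +
      10 * Real.sqrt (Sur (3 / 2) b)) = 80 * (ms b * Real.exp (-ρ)) +
        160 * (Real.exp (ρ / 2) * Real.sqrt (Sur (3 / 2) b)) := by
    rw [← e1]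
    ring
  rw [e2] at h2
  linarith

/-- T2 -/
theorem tool2 (hb : Bd b) {R : ℝ} (hR : 0 < R) :
    Vb b ≤ 81 * (ms b * R) + 160 * (Real.sqrt (Sur (3 / 2) b) / Real.sqrt R) := by
  have h := tool2_log hb (-Real.log R)
  rw [neg_neg, Real.exp_log hR] at h
  have e : Real.exp (-Real.log R / 2) = 1 / Real.sqrt R := by
    rw [Real.sqrt_eq_rpow, Real.rpow_def_of_pos hR, one_div, ← Real.exp_neg]
    congr 1
    ring
  rw [e] at h
  rw [show Real.sqrt (Sur (3 / 2) b) / Real.sqrt R = 1 / Real.sqrt R * Real.sqrt (Sur (3 / 2) b) by ring]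
  exact h

theorem cc_five : cc 5 ≤ 14 := by
  have h1 := Real.exp_one_lt_d9
  have h3 := Real.exp_pos 1
  have h2 : Real.exp (5 / 2) ^ 2 = Real.exp 1 ^ 5 := by
    rw [← Real.exp_nat_mul, ← Real.exp_nat_mul]
    congr 1
    norm_num
  have h4 : Real.exp 1 ^ 5 ≤ 169 := by
    have : Real.exp 1 ^ 5 ≤ 2.7182818286 ^ 5 := pow_le_pow_left₀ h3.le h1.le 5
    exact this.trans (by norm_num)
  have h5 : Real.exp (5 / 2) ≤ 13 := by
    by_contra hc
    push Not at hc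
    nlinarith
  have h6 : Real.exp (-(5 / 2)) ≤ 1 := Real.exp_le_one_iff.2 (by norm_num)
  rw [cc_eq]
  linarith

/-- T3, mass part: half of the mass at distance at most `th r0` -/
theorem tool3 (hb : Bd b) {r0 : ℝ} (h : ms b ≤ 2 * MMb b r0) :
    ms b ^ 2 * Real.exp (-(3 * r0)) ≤ 2200 * Sur (3 / 2) b := by
  have hm := SAbs_ms_nonneg hb
  have h1 := gA_ge hb (m := 3 / 2) (by norm_num) r0
  have h2 := gA_le hb (m := 3 / 2) (by norm_num) (r := r0 + 4) (SAbs_MMb_le hb (r0 + 4 + 1))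
  have h3 := gA_box hb (m := 3 / 2) (by norm_num) (r := r0) (s := r0 + 4) (D := 5)
    (by
      rw [show r0 - (r0 + 4) = -4 by ring]
      norm_num)
  obtain ⟨x, hx⟩ : ∃ x, x = Real.exp (-(3 / 2 * r0)) := ⟨_, rfl⟩
  have hx0 : 0 < x := by
    rw [hx]
    exact Real.exp_pos _
  have e1 : Real.exp (-(3 / 2 * (r0 + 4))) = x * Real.exp (-6) := by
    rw [hx, ← Real.exp_add]
    congr 1
    ring
  have e2 : Real.exp (-(3 * r0)) = x ^ 2 := by
    rw [hx, ← Real.exp_nat_mul]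
    congr 1
    push_cast
    ring
  have e3 : Am (3 / 2) b r0 = x * MMb b r0 := by
    rw [hx]
    rfl
  have h6 : Real.exp (-6) ≤ 1 / 64 := by
    have g1 : (2:ℝ) ≤ Real.exp 1 := by
      have := Real.exp_one_gt_d9
      linarith
    have g2 : Real.exp 6 = Real.exp 1 ^ 6 := by
      rw [← Real.exp_nat_mul]
      norm_num
    have g3 : (64:ℝ) ≤ Real.exp 6 := by
      rw [g2]
      calc (64:ℝ) = 2 ^ 6 := by norm_num
        _ ≤ _ := pow_le_pow_left₀ (by norm_num) g1 6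
    rw [Real.exp_neg, ← one_div]
    exact one_div_le_one_div_of_le (by norm_num) g3
  have h7 : 1 / 5 ≤ Real.exp (-(3 / 2)) := by
    rw [Real.exp_neg, ← one_div]
    exact one_div_le_one_div_of_le (Real.exp_pos _) exp_32
  rw [e1] at h2
  rw [e3] at h1
  rw [e2]
  have h8 : 1 / 5 * (x * (ms b / 2)) ≤ gA (3 / 2) b r0 := by
    refine le_trans ?_ h1
    refine mul_le_mul h7 ?_ (by positivity) (Real.exp_pos _).le
    exact mul_le_mul_of_nonneg_left (by linarith) hx0.le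
  have h9 : gA (3 / 2) b (r0 + 4) ≤ ms b * (x * (1 / 64)) := by
    refine h2.trans ?_
    exact mul_le_mul_of_nonneg_left (mul_le_mul_of_nonneg_left h6 hx0.le) hm
  have h10 : 27 / 320 * (ms b * x) ≤ gA (3 / 2) b r0 - gA (3 / 2) b (r0 + 4) := by linarith
  have h11 : 0 ≤ ms b * x := by positivity
  have h12 : (27 / 320 * (ms b * x)) ^ 2 ≤ (gA (3 / 2) b r0 - gA (3 / 2) b (r0 + 4)) ^ 2 :=
    pow_le_pow_left₀ (by positivity) h10 2
  have h13 := Sur_nn (3 / 2) b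
  have h14 := cc_five
  have h15 : cc 5 * Sur (3 / 2) b ≤ 14 * Sur (3 / 2) b := mul_le_mul_of_nonneg_right h14 h13
  nlinarith

/-- T3, `V` part: all the mass at distance at most `th r0` -/
theorem tool3V (hb : Bd b) {r0 : ℝ} (h : ms b = MMb b r0) :
    Vb b ≤ 4000 * (Real.exp (r0 / 2) * Real.sqrt (Sur (3 / 2) b)) := by
  have hm := SAbs_ms_nonneg hb
  have hM := SAbs_MMb_nonneg hb r0
  have h1 := tool3 hb (r0 := r0) (by linarith)
  have h2 := tool2_log hb r0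
  have hS := Real.sqrt_nonneg (Sur (3 / 2) b)
  have hx := Real.exp_pos (r0 / 2)
  have h3 : ms b * Real.exp (-r0) ≤ 47 * (Real.exp (r0 / 2) * Real.sqrt (Sur (3 / 2) b)) := by
    refine (le_abs_self _).trans (abs_le_of_sq_le_sq ?_ (by positivity))
    rw [mul_pow, mul_pow, mul_pow, Real.sq_sqrt (Sur_nn _ _)]
    have e1 : Real.exp (-r0) ^ 2 = Real.exp (-(3 * r0)) * Real.exp (r0 / 2) ^ 2 := by
      rw [← Real.exp_nat_mul, ← Real.exp_nat_mul, ← Real.exp_add]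
      congr 1
      push_cast
      ring
    rw [e1]
    have h4 : 0 < Real.exp (r0 / 2) ^ 2 := by positivity
    have h5 := mul_le_mul_of_nonneg_right h1 h4.le
    have h6 := mul_nonneg h4.le (Sur_nn (3 / 2) b)
    nlinarith
  have h4 := mul_nonneg hx.le hS
  linarith

/-- comparison of the two averages -/
theorem gA_lo (hb : Bd b) (r : ℝ) : Real.exp r * gA (3 / 2) b r ≤ gA (1 / 2) b r := by
  have hA1 := Am_cont hb (1 / 2)
  have hA3 := Am_cont hb (3 / 2)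
  unfold gA
  rw [← intervalIntegral.integral_const_mul]
  refine intervalIntegral.integral_mono_on (by linarith)
    ((continuous_const.mul hA3).intervalIntegrable _ _) (hA1.intervalIntegrable _ _) ?_
  intro x hx
  rw [Am_13]
  exact mul_le_mul_of_nonneg_right (Real.exp_le_exp.2 hx.1) (Am_nonneg hb _ _)

theorem gA_up (hb : Bd b) (r : ℝ) : gA (1 / 2) b r ≤ Real.exp (r + 1) * gA (3 / 2) b r := by
  have hA1 := Am_cont hb (1 / 2)
  have hA3 := Am_cont hb (3 / 2)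
  unfold gA
  rw [← intervalIntegral.integral_const_mul]
  refine intervalIntegral.integral_mono_on (by linarith)
    (hA1.intervalIntegrable _ _) ((continuous_const.mul hA3).intervalIntegrable _ _) ?_
  intro x hx
  rw [Am_13]
  exact mul_le_mul_of_nonneg_right (Real.exp_le_exp.2 hx.2) (Am_nonneg hb _ _)

theorem gA_nn (hb : Bd b) {m : ℝ} (hm : 0 < m) (r : ℝ) : 0 ≤ gA m b r :=
  (mul_nonneg (Real.exp_pos _).le (Am_nonneg hb _ _)).trans (gA_ge hb hm _)

/-- scalar part of T4 -/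
theorem scal4 {X y g g4 f f4 S3 S1 : ℝ} (hX : 0 < X) (hy : 0 < y) (hXy : X * y = 1)
    (s3 : 0 ≤ S3) (s1 : 0 ≤ S1) (l4 : 45 * (X * g4) ≤ f4)
    (u0 : f ≤ 3 * (X * g)) (d3 : g ≤ g4 + 10 * S3) (d1 : f4 ≤ f + 10 * S1) :
    S3 ≤ S3 + y * S1 ∧ S1 ≤ X * (S3 + y * S1) ∧ g ≤ 11 * (S3 + y * S1) ∧
      f ≤ 33 * (X * (S3 + y * S1)) := by
  have c6 := mul_le_mul_of_nonneg_left d3 hX.le
  have c7 : 42 * (X * g4) ≤ 30 * (X * S3) + 10 * S1 := by linarith
  obtain ⟨T, hT⟩ : ∃ T, T = S3 + y * S1 := ⟨_, rfl⟩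
  rw [← hT]
  have t3 : S3 ≤ T := by
    rw [hT]
    have := mul_nonneg hy.le s1
    linarith
  have t1 : S1 ≤ X * T := by
    rw [hT]
    have h1 : X * (S3 + y * S1) = X * S3 + (X * y) * S1 := by ring
    rw [h1, hXy]
    have := mul_nonneg hX.le s3
    linarith
  have t4 : g4 ≤ T := by
    have h2 := mul_le_mul_of_nonneg_left t3 hX.le
    have h3 : X * g4 ≤ X * T := by linarith
    exact le_of_mul_le_mul_left h3 hX
  have t0 : g ≤ 11 * T := by linarith
  refine ⟨t3, t1, t0, ?_⟩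
  have := mul_le_mul_of_nonneg_left t0 hX.le
  linarith

/-- the averages at `q = e^{-ρ}` -/
theorem aver4 (hb : Bd b) (ρ : ℝ) :
    gA (3 / 2) b ρ ≤ 11 * (Real.sqrt (Sur (3 / 2) b) + Real.exp (-ρ) * Real.sqrt (Sur (1 / 2) b)) ∧
    gA (1 / 2) b ρ ≤ 33 * (Real.exp ρ *
      (Real.sqrt (Sur (3 / 2) b) + Real.exp (-ρ) * Real.sqrt (Sur (1 / 2) b))) ∧
    Real.sqrt (Sur (1 / 2) b) ≤ Real.exp ρ *
      (Real.sqrt (Sur (3 / 2) b) + Real.exp (-ρ) * Real.sqrt (Sur (1 / 2) b)) := by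
  have d3 := abs_le.1 (gA_diff hb (m := 3 / 2) (by norm_num) ρ (ρ + 4))
  have d1 := abs_le.1 (gA_diff hb (m := 1 / 2) (by norm_num) ρ (ρ + 4))
  rw [show ρ - (ρ + 4) = -4 by ring, show |(-4:ℝ)| = 4 by norm_num] at d3
  rw [show ρ - (ρ + 4) = -4 by ring, show |(-4:ℝ)| = 4 by norm_num] at d1
  have l4 := gA_lo hb (ρ + 4)
  have u0 := gA_up hb ρ
  have hx := Real.exp_pos ρ
  have a1 : Real.exp (ρ + 1) = Real.exp ρ * Real.exp 1 := Real.exp_add _ _
  have a4 : Real.exp (ρ + 4) = Real.exp ρ * Real.exp 4 := Real.exp_add _ _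
  have b1 := Real.exp_one_lt_d9
  have b2 := Real.exp_one_gt_d9
  have b4 : 45 ≤ Real.exp 4 := by
    have : Real.exp 4 = Real.exp 1 ^ 4 := by
      rw [← Real.exp_nat_mul]
      norm_num
    rw [this]
    calc (45:ℝ) ≤ 2.7182818283 ^ 4 := by norm_num
      _ ≤ _ := pow_le_pow_left₀ (by norm_num) b2.le 4
  rw [a4] at l4
  rw [a1] at u0
  have c4 : 45 * (Real.exp ρ * gA (3 / 2) b (ρ + 4)) ≤ gA (1 / 2) b (ρ + 4) := by
    have := mul_le_mul_of_nonneg_left b4 (mul_nonneg hx.le (gA_nn hb (m := 3 / 2) (by norm_num) (ρ + 4)))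
    linarith
  have c0 : gA (1 / 2) b ρ ≤ 3 * (Real.exp ρ * gA (3 / 2) b ρ) := by
    have h1 : Real.exp 1 ≤ 3 := by linarith
    have := mul_le_mul_of_nonneg_left h1 (mul_nonneg hx.le (gA_nn hb (m := 3 / 2) (by norm_num) ρ))
    linarith
  have hxy : Real.exp ρ * Real.exp (-ρ) = 1 := by
    rw [← Real.exp_add]
    simp
  obtain ⟨-, h2, h3, h4⟩ := scal4 (S3 := Real.sqrt (Sur (3 / 2) b))
    (S1 := Real.sqrt (Sur (1 / 2) b)) hx (Real.exp_pos (-ρ)) hxy
    (Real.sqrt_nonneg _) (Real.sqrt_nonneg _) c4 c0 (by linarith) (by linarith)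
  exact ⟨h3, h4, h2⟩

/-- T4, logarithmic form: `q = e^{-ρ}` -/
theorem tool4_log (hb : Bd b) (ρ : ℝ) :
    Real.exp (-ρ) * Vb b ^ 2 ≤ 10 ^ 7 * (Sur (3 / 2) b + Real.exp (-ρ) ^ 2 * Sur (1 / 2) b) := by
  obtain ⟨t0, t5, t1⟩ := aver4 hb ρ
  obtain ⟨S3, hS3⟩ : ∃ S3, S3 = Real.sqrt (Sur (3 / 2) b) := ⟨_, rfl⟩
  obtain ⟨S1, hS1⟩ : ∃ S1, S1 = Real.sqrt (Sur (1 / 2) b) := ⟨_, rfl⟩
  obtain ⟨y, hy⟩ : ∃ y, y = Real.exp (-ρ) := ⟨_, rfl⟩
  obtain ⟨T, hT⟩ : ∃ T, T = S3 + y * S1 := ⟨_, rfl⟩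
  rw [← hS3, ← hS1, ← hy, ← hT] at t0 t5
  rw [← hS3, ← hS1, ← hy, ← hT] at t1
  have s3 : 0 ≤ S3 := by
    rw [hS3]
    exact Real.sqrt_nonneg _
  have s1 : 0 ≤ S1 := by
    rw [hS1]
    exact Real.sqrt_nonneg _
  have q3 : S3 ^ 2 = Sur (3 / 2) b := by
    rw [hS3]
    exact Real.sq_sqrt (Sur_nn _ _)
  have q1 : S1 ^ 2 = Sur (1 / 2) b := by
    rw [hS1]
    exact Real.sq_sqrt (Sur_nn _ _)
  have hx := Real.exp_pos ρ
  have hy0 : 0 < y := by
    rw [hy]
    exact Real.exp_pos _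
  have hT0 : 0 ≤ T := by
    rw [hT]
    positivity
  have t3 : S3 ≤ T := by
    rw [hT]
    have := mul_nonneg hy0.le s1
    linarith
  have hL : ∀ u < ρ, Am (3 / 2) b u ≤ 55 * T + (1 + |u - ρ|) * (10 * T) := by
    intro u _
    have h2 := tool1' hb (m := 3 / 2) (by norm_num) u ρ
    rw [← hS3] at h2
    have h3 : 0 ≤ gA (3 / 2) b ρ + 2 * (1 + |u - ρ|) * S3 := by
      have := gA_nn hb (m := 3 / 2) (by norm_num) ρ
      positivity
    have h4 := mul_le_mul_of_nonneg_right exp_32 h3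
    have h5 : (1 + |u - ρ|) * S3 ≤ (1 + |u - ρ|) * T :=
      mul_le_mul_of_nonneg_left t3 (by positivity)
    linarith
  have hR : ∀ u > ρ, Am (1 / 2) b u ≤ 66 * (Real.exp ρ * T) +
      (1 + |u - ρ|) * (4 * (Real.exp ρ * T)) := by
    intro u _
    have h2 := tool1' hb (m := 1 / 2) (by norm_num) u ρ
    rw [← hS1] at h2
    have h20 : Real.exp (1 / 2) ≤ 2 := by
      have h21 : Real.exp (1 / 2) ^ 2 = Real.exp 1 := by
        rw [← Real.exp_nat_mul]
        norm_num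
      have h22 := Real.exp_pos (1 / 2)
      have h23 := Real.exp_one_lt_d9
      by_contra hc
      push Not at hc
      nlinarith
    have h3 : 0 ≤ gA (1 / 2) b ρ + 2 * (1 + |u - ρ|) * S1 := by
      have := gA_nn hb (m := 1 / 2) (by norm_num) ρ
      positivity
    have h4 := mul_le_mul_of_nonneg_right h20 h3
    have h5 : (1 + |u - ρ|) * S1 ≤ (1 + |u - ρ|) * (Real.exp ρ * T) :=
      mul_le_mul_of_nonneg_left t1 (by positivity)
    linarith
  have v1 := left_part hb (by positivity) (by positivity) hL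
  have v2 := right_part hb (by positivity) (by positivity) hR
  have v3 := Vb_split hb ρ
  obtain ⟨w, hw⟩ : ∃ w, w = Real.exp (ρ / 2) := ⟨_, rfl⟩
  have hw0 : 0 < w := by
    rw [hw]
    exact Real.exp_pos _
  have e5 : Real.exp (-(ρ / 2)) * Real.exp ρ = w := by
    rw [hw, ← Real.exp_add]
    congr 1
    ring
  have e6 : y * w ^ 2 = 1 := by
    rw [hw, hy, ← Real.exp_nat_mul, ← Real.exp_add, Real.exp_eq_one_iff]
    push_cast
    ring
  have v4 : 16 * Real.exp (-(ρ / 2)) * (66 * (Real.exp ρ * T) + 4 * (Real.exp ρ * T)) =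
      1120 * (w * T) := by
    rw [← e5]
    ring
  rw [v4] at v2
  rw [← hw] at v1
  have v5 : Vb b ≤ 2160 * (w * T) := by
    rw [v3]
    linarith
  have v6 : Vb b ^ 2 ≤ (2160 * (w * T)) ^ 2 := pow_le_pow_left₀ (Vb_nn hb) v5 2
  rw [← hy]
  have v7 : y * Vb b ^ 2 ≤ y * (2160 * (w * T)) ^ 2 := mul_le_mul_of_nonneg_left v6 hy0.le
  have v8 : y * (2160 * (w * T)) ^ 2 = 2160 ^ 2 * T ^ 2 := by
    have : y * (2160 * (w * T)) ^ 2 = 2160 ^ 2 * (y * w ^ 2) * T ^ 2 := by ring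
    rw [this, e6]
    ring
  have v9 : T ^ 2 ≤ 2 * (S3 ^ 2 + y ^ 2 * S1 ^ 2) := by
    rw [hT]
    nlinarith [sq_nonneg (S3 - y * S1)]
  rw [← q3, ← q1]
  have v10 : 0 ≤ S3 ^ 2 + y ^ 2 * S1 ^ 2 := by positivity
  rw [v8] at v7
  norm_num at v7 ⊢
  linarith

/-- T4 -/
theorem tool4 (hb : Bd b) {q : ℝ} (hq : 0 < q) :
    q * Vb b ^ 2 ≤ 10 ^ 7 * (Sur (3 / 2) b + q ^ 2 * Sur (1 / 2) b) := by
  have h := tool4_log hb (-Real.log q)
  rwa [neg_neg, Real.exp_log hq] at h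

/-- `th (-log (cot (l/2))) = l` -/
theorem th_log_ct {l : ℝ} (h0 : 0 < l) (h1 : l < π) :
    th (-Real.log (ct l)) = l ∧ Real.exp (- -Real.log (ct l)) = ct l := by
  have hc := ct_pos h0 h1
  refine ⟨?_, ?_⟩
  · unfold th
    rw [Real.exp_neg, Real.exp_log hc]
    have e : (ct l)⁻¹ = Real.tan (l / 2) := by
      unfold ct
      rw [Real.tan_eq_sin_div_cos, inv_div]
    rw [e, Real.arctan_tan (by linarith) (by linarith)]
    ring
  · rw [neg_neg, Real.exp_log hc]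

theorem ms_of_supp (hb : Bd b) {l : ℝ} (h1 : l < π)
    (hz : ∀ x, l ≤ x → x ≤ π → b x = 0) : ms b = ∫ x in (0:ℝ)..l, b x := by
  unfold ms
  have h2 : ∫ x in l..π, b x = 0 := by
    have : ∫ x in l..π, b x = ∫ x in l..π, (0:ℝ) := by
      refine intervalIntegral.integral_congr fun x hx => ?_
      rw [uIcc_of_le h1.le] at hx
      exact hz x hx.1 hx.2
    rw [this]
    simp
  rw [← intervalIntegral.integral_add_adjacent_intervals (hb.c.intervalIntegrable 0 l)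
    (hb.c.intervalIntegrable l π), h2, add_zero]

/-- T3 for an arc of length `l < π` -/
theorem tool3_arc (hb : Bd b) {l : ℝ} (h0 : 0 < l) (h1 : l < π)
    (hz : ∀ x, l ≤ x → x ≤ π → b x = 0) :
    ms b ^ 2 * ct l ^ 3 ≤ 2200 * Sur (3 / 2) b ∧
      Vb b * Real.sqrt (ct l) ≤ 4000 * Real.sqrt (Sur (3 / 2) b) := by
  obtain ⟨e1, e2⟩ := th_log_ct h0 h1
  have hc := ct_pos h0 h1
  have hM : MMb b (-Real.log (ct l)) = ms b := by
    rw [ms_of_supp hb h1 hz]
    unfold MMb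
    rw [e1]
  have hm := SAbs_ms_nonneg hb
  constructor
  · have h2 := tool3 hb (r0 := -Real.log (ct l)) (by rw [hM]; linarith)
    have e3 : Real.exp (-(3 * -Real.log (ct l))) = ct l ^ 3 := by
      rw [show -(3 * -Real.log (ct l)) = ((3:ℕ):ℝ) * Real.log (ct l) by push_cast; ring,
        Real.exp_nat_mul, Real.exp_log hc]
    rwa [e3] at h2
  · have h2 := tool3V hb (r0 := -Real.log (ct l)) hM.symm
    have e3 : Real.exp (-Real.log (ct l) / 2) * Real.sqrt (ct l) = 1 := by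
      rw [Real.sqrt_eq_rpow, Real.rpow_def_of_pos hc, ← Real.exp_add, Real.exp_eq_one_iff]
      ring
    have h3 := mul_le_mul_of_nonneg_right h2 (Real.sqrt_nonneg (ct l))
    have e4 : 4000 * (Real.exp (-Real.log (ct l) / 2) * Real.sqrt (Sur (3 / 2) b)) * Real.sqrt (ct l) =
        4000 * ((Real.exp (-Real.log (ct l) / 2) * Real.sqrt (ct l)) * Real.sqrt (Sur (3 / 2) b)) := by
      ring
    rw [e4, e3, one_mul] at h3
    exact h3

/-- T5: the two views of one arc of length `l < π` -/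
theorem tool5 {b' : ℝ → ℝ} (hb : Bd b) (hb' : Bd b') {l : ℝ} (h0 : 0 < l) (h1 : l < π)
    (hz : ∀ x, l ≤ x → x ≤ π → b x = 0) (hz' : ∀ x, l ≤ x → x ≤ π → b' x = 0)
    (hr : ∀ x, 0 ≤ x → x ≤ l → b' x = b (l - x)) :
    ms b' = ms b ∧ ms b ^ 2 ≤ 2200 * (Sur (3 / 2) b + Sur (3 / 2) b') := by
  have hm1 := ms_of_supp hb h1 hz
  have hm2 := ms_of_supp hb' h1 hz'
  have hsub : ∀ s : ℝ, 0 ≤ s → s ≤ l → ∫ x in (0:ℝ)..s, b' x = ∫ x in (l - s)..l, b x := by
    intro s hs hsl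
    have e : ∫ x in (0:ℝ)..s, b' x = ∫ x in (0:ℝ)..s, b (l - x) := by
      refine intervalIntegral.integral_congr fun x hx => ?_
      rw [uIcc_of_le hs] at hx
      exact hr x hx.1 (hx.2.trans hsl)
    rw [e, intervalIntegral.integral_comp_sub_left (fun x => b x) l, sub_zero]
  have e0 : ms b' = ms b := by
    rw [hm1, hm2, hsub l h0.le le_rfl, sub_self]
  refine ⟨e0, ?_⟩
  have hm := SAbs_ms_nonneg hb
  have hhalf : ms b = (∫ x in (0:ℝ)..(l / 2), b x) + ∫ x in (0:ℝ)..(l / 2), b' x := by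
    rw [hm1, hsub (l / 2) (by linarith) (by linarith), show l - l / 2 = l / 2 by ring,
      intervalIntegral.integral_add_adjacent_intervals (hb.c.intervalIntegrable _ _)
        (hb.c.intervalIntegrable _ _)]
  have hge : ∀ c : ℝ → ℝ, Bd c → ∫ x in (0:ℝ)..(l / 2), c x ≤ MMb c 0 := by
    intro c hc
    unfold MMb
    have hth : th 0 = π / 2 := by
      unfold th
      rw [Real.exp_zero, Real.arctan_one]
      ring
    rw [hth]
    refine intervalIntegral.integral_mono_interval le_rfl (by linarith) (by linarith) ?_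
      (hc.c.intervalIntegrable _ _)
    refine (ae_restrict_iff' measurableSet_Ioc).2 (Eventually.of_forall fun x hx => ?_)
    exact hc.nn x ⟨hx.1.le, by linarith [hx.2, Real.pi_pos]⟩
  have k1 := hge b hb
  have k2 := hge b' hb'
  have s1 := Sur_nn (3 / 2) b
  have s2 := Sur_nn (3 / 2) b'
  have e3 : Real.exp (-(3 * (0:ℝ))) = 1 := by simp
  by_cases h : ms b ≤ 2 * MMb b 0
  · have h2 := tool3 hb h
    rw [e3, mul_one] at h2
    linarith
  · have h3 : ms b' ≤ 2 * MMb b' 0 := by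
      rw [e0]
      linarith
    have h2 := tool3 hb' h3
    rw [e3, mul_one, e0] at h2
    linarith

end Pool.Agent.H12.DA
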